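import Pool.Agent.helper23.CU.SpecE

/-! cu:HK: the cut edges of a box. -/

open Finset Filter Topology

namespace CU

theorem HK_key {n : ℕ} [NeZero n] {r : ℕ} (hn : 2 * r + 3 ≤ n) (z : ZMod n) (s : ℤ)
    (hs : s = 1 ∨ s = -1) (h1 : z.valMinAbs.natAbs ≤ r) :
    (z + (s : ZMod n)).valMinAbs = z.valMinAbs + s := by
  rw [ZMod.valMinAbs_spec]
  constructor
  · rw [Int.cast_add, ZMod.coe_valMinAbs]
  · constructor <;> omega

theorem HK_mem {n : ℕ} [NeZero n] {r : ℕ} (u x : Site 2 n) : x ∈ Box r u ↔ Near r u x := by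
  unfold Box
  rw [Finset.mem_filter]
  exact ⟨fun h => h.2, fun h => ⟨Finset.mem_univ _, h⟩⟩

theorem HK_cut {n : ℕ} [NeZero n] {r : ℕ} (u : Site 2 n) (e : Edge 2 n) (he : e ∈ cut r u) :
    ∃ s : ℤ, (s = 1 ∨ s = -1) ∧ Near r u (inn r u e) ∧ ¬ Near r u (outn r u e) ∧
      outn r u e (1 - e.2) = inn r u e (1 - e.2) + (s : ZMod n) ∧
      outn r u e e.2 = inn r u e e.2 ∧ (s = -1 → e.1 = inn r u e) ∧
      (s = 1 → e.1 = outn r u e) := by
  have hne : ∀ i : Fin 2, i ≠ 1 - i := by decide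
  have h1 : (dn e) (1 - e.2) = e.1 (1 - e.2) - 1 := by
    simp [dn, ev]
  have h2 : (dn e) e.2 = e.1 e.2 := by
    simp [dn, ev, Pi.single_eq_of_ne (hne e.2)]
  unfold cut at he
  rw [Finset.mem_filter] at he
  rcases he.2 with ⟨ha, hb⟩ | ⟨ha, hb⟩
  · refine ⟨-1, Or.inr rfl, ?_, ?_, ?_, ?_, ?_, ?_⟩
    · rw [inn, if_pos ha]; exact (HK_mem _ _).1 ha
    · rw [outn, if_pos ha]; exact fun h => hb ((HK_mem _ _).2 h)
    · rw [inn, outn, if_pos ha, if_pos ha, h1]; push_cast; ring
    · rw [inn, outn, if_pos ha, if_pos ha, h2]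
    · intro _; rw [inn, if_pos ha]
    · intro h; omega
  · refine ⟨1, Or.inl rfl, ?_, ?_, ?_, ?_, ?_, ?_⟩
    · rw [inn, if_neg ha]; exact (HK_mem _ _).1 hb
    · rw [outn, if_neg ha]; exact fun h => ha ((HK_mem _ _).2 h)
    · rw [inn, outn, if_neg ha, if_neg ha, h1]; push_cast; ring
    · rw [inn, outn, if_neg ha, if_neg ha, h2]
    · intro h; omega
    · intro _; rw [outn, if_neg ha]

theorem HK_main {n : ℕ} [NeZero n] {r : ℕ} (hn : 2 * r + 3 ≤ n) (u : Site 2 n) (e : Edge 2 n)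
    (he : e ∈ cut r u) :
    ∃ s : ℤ, (s = 1 ∨ s = -1) ∧ Near r u (inn r u e) ∧ Near (r + 1) u (outn r u e) ∧
      (inn r u e (1 - e.2) - u (1 - e.2)).valMinAbs = s * r ∧
      outn r u e (1 - e.2) = inn r u e (1 - e.2) + (s : ZMod n) ∧
      outn r u e e.2 = inn r u e e.2 ∧ (s = -1 → e.1 = inn r u e) ∧
      (s = 1 → e.1 = outn r u e) := by
  have hk2 : ∀ i k : Fin 2, k = i ∨ k = 1 - i := by decide
  obtain ⟨s, hs, hi, ho, e1, e2, e3, e4⟩ := HK_cut u e he
  have h1 := hi (1 - e.2)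
  have h2 := HK_key hn _ s hs h1
  have h3 : outn r u e (1 - e.2) - u (1 - e.2) =
      inn r u e (1 - e.2) - u (1 - e.2) + (s : ZMod n) := by rw [e1]; ring
  have h4 : r < (outn r u e (1 - e.2) - u (1 - e.2)).valMinAbs.natAbs := by
    by_contra hcon
    apply ho
    intro k
    rcases hk2 e.2 k with h | h
    · rw [h, e2]; exact hi _
    · rw [h]; omega
  rw [h3, h2] at h4
  refine ⟨s, hs, hi, ?_, ?_, e1, e2, e3, e4⟩
  · intro k
    rcases hk2 e.2 k with h | h
    · rw [h, e2]; have := hi e.2; omega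
    · rw [h, h3, h2]; omega
  · rcases hs with rfl | rfl <;> omega

theorem HK : HK_stmt := by
  classical
  intro n r _ hn u
  have hk2 : ∀ i k : Fin 2, k = i ∨ k = 1 - i := by decide
  have hne : ∀ i : Fin 2, i ≠ 1 - i := by decide
  refine ⟨?_, ?_⟩
  · have hsub : cut r u ⊆ ((Finset.univ : Finset (Fin 2)) ×ˢ (Finset.univ : Finset Bool) ×ˢ
        (Finset.Icc (-(r : ℤ)) r)).image (fun t => ((fun k => if k = t.1 then u k + (t.2.2 : ZMod n)
          else u k + (if t.2.1 then ((r : ℤ) + 1 : ℤ) else (-(r : ℤ) : ℤ) : ℤ), t.1) :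
            Edge 2 n)) := by
      intro e he
      obtain ⟨s, hs, hi, ho, h1, e1, e2, e3, e4⟩ := HK_main hn u e he
      rw [Finset.mem_image]
      refine ⟨(e.2, decide (s = 1), (inn r u e e.2 - u e.2).valMinAbs), ?_, ?_⟩
      · simp only [Finset.mem_product, Finset.mem_univ, true_and, Finset.mem_Icc]
        have := hi e.2
        omega
      · have h5 : ∀ z : ZMod n, ((z.valMinAbs : ℤ) : ZMod n) = z := fun z => ZMod.coe_valMinAbs z
        have h6 : inn r u e (1 - e.2) = u (1 - e.2) + ((s * r : ℤ) : ZMod n) := by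
          rw [← h1, h5]; ring
        refine Prod.ext (funext fun k => ?_) rfl
        show (if k = e.2 then u k + _ else _) = e.1 k
        rcases hs with hs | hs
        · rw [e4 hs]
          rcases hk2 e.2 k with h | h
          · rw [if_pos h, h, h5, e2]; ring
          · have h7 : ¬ k = e.2 := by rw [h]; exact (hne e.2).symm
            rw [if_neg h7, h, e1, h6, hs]
            simp
            ring
        · rw [e3 hs]
          rcases hk2 e.2 k with h | h
          · rw [if_pos h, h, h5]; ring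
          · have h7 : ¬ k = e.2 := by rw [h]; exact (hne e.2).symm
            rw [if_neg h7, h, h6, hs]
            simp
    refine (Finset.card_le_card hsub).trans (Finset.card_image_le.trans ?_)
    rw [Finset.card_product, Finset.card_product, Int.card_Icc]
    simp only [Finset.card_univ, Fintype.card_fin, Fintype.card_bool]
    omega
  · intro e he
    obtain ⟨s, hs, hi, ho, h1, e1, e2, e3, e4⟩ := HK_main hn u e he
    refine ⟨(HK_mem _ _).2 hi, ⟨1 - e.2, ?_⟩, ho⟩
    rw [h1]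
    rcases hs with rfl | rfl <;> omega

end CU
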