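import Pool.Agent.helper23.CU.SpecE

/-! cu:RB: the map `σ ↦ brk σ` is even and injective up to the flip. -/

open Finset Filter Topology

namespace CU

theorem RB_const {n : ℕ} [NeZero n] {α : Type} (g : Site 2 n → α)
    (h : ∀ x i, g (x + ev i) = g x) (x : Site 2 n) : g x = g 0 := by
  have h1 : ∀ (k : ℕ) (i : Fin 2) (y : Site 2 n), g (y + k • ev i) = g y := by
    intro k i y
    induction k with
    | zero => simp
    | succ k ih => rw [succ_nsmul, ← add_assoc, h, ih]
  have h3 : ∀ (i k : Fin 2) (m : ℕ), (m • (ev i : Site 2 n)) k =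
      if k = i then (m : ZMod n) else 0 := by
    intro i k m
    rw [Pi.smul_apply, ev, Pi.single_apply]
    split_ifs <;> simp
  have h2 : (0 + (x 0).val • ev 0) + (x 1).val • ev 1 = x := by
    funext k
    rw [Pi.add_apply, Pi.add_apply, h3, h3, ZMod.natCast_zmod_val, ZMod.natCast_zmod_val]
    fin_cases k <;> simp
  calc g x = g ((0 + (x 0).val • ev 0) + (x 1).val • ev 1) := by rw [h2]
    _ = g 0 := by rw [h1, h1]

theorem RB_bv (a b : Bool) : (if a ≠ b then (1 : ZMod 2) else 0) = bv a + bv b := by
  cases a <;> cases b <;> decide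

theorem RB_bd {n : ℕ} [NeZero n] (σ : Conf 2 n) (v : Site 2 n) : bd (brk σ) v =
    ∑ i : Fin 2, ((bv (σ v) + bv (σ (v + ev i))) +
      (bv (σ (v + ev (1 - i))) + bv (σ (v + ev (1 - i) + ev i)))) := by
  unfold bd brk
  rw [Finset.sum_filter, Fintype.sum_prod_type_right]
  refine Finset.sum_congr rfl fun i _ => ?_
  have h1 : ∀ x : Site 2 n, (if σ x ≠ σ (x + ev i) then
      ((if x = v then (1 : ZMod 2) else 0) + (if dn (x, i) = v then 1 else 0)) else 0) =
      (if x = v then (bv (σ x) + bv (σ (x + ev i))) else 0) +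
        (if x = v + ev (1 - i) then (bv (σ x) + bv (σ (x + ev i))) else 0) := by
    intro x
    have h2 : dn (x, i) = v ↔ x = v + ev (1 - i) := by
      unfold dn
      exact sub_eq_iff_eq_add
    rw [← RB_bv]
    by_cases ha : σ x ≠ σ (x + ev i)
    · simp only [ha, if_true, h2, ne_eq, not_false_eq_true]
    · simp only [ha, if_false, ite_self, add_zero]
  rw [Finset.sum_congr rfl fun x _ => h1 x, Finset.sum_add_distrib, Finset.sum_ite_eq',
    Finset.sum_ite_eq']
  simp only [Finset.mem_univ, if_true]

theorem RB : RB_stmt := by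
  intro n _ hn
  refine ⟨?_, ?_⟩
  · intro σ
    funext v
    rw [RB_bd, Fin.sum_univ_two]
    have e1 : (1 : Fin 2) - 0 = 1 := rfl
    have e2 : (1 : Fin 2) - 1 = 0 := rfl
    rw [e1, e2, show v + ev 1 + ev 0 = v + ev 0 + ev 1 by abel]
    have h4 : ∀ a b c d : ZMod 2, a + b + (c + d) + (a + c + (b + d)) = 0 := by decide
    exact h4 _ _ _ _
  · intro σ σ' h
    have h1 : ∀ (x : Site 2 n) (i : Fin 2), (σ x ≠ σ (x + ev i)) ↔ (σ' x ≠ σ' (x + ev i)) := by
      intro x i
      have h2 : (x, i) ∈ brk σ ↔ (x, i) ∈ brk σ' := by rw [h]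
      simpa only [brk, Finset.mem_filter, Finset.mem_univ, true_and] using h2
    have h3 : ∀ x, (xor (σ x) (σ' x)) = xor (σ 0) (σ' 0) := by
      refine RB_const (fun x => xor (σ x) (σ' x)) ?_
      intro x i
      have h4 := h1 x i
      show xor (σ (x + ev i)) (σ' (x + ev i)) = xor (σ x) (σ' x)
      revert h4
      generalize σ x = a, σ (x + ev i) = b, σ' x = c, σ' (x + ev i) = e
      revert a b c e
      decide
    by_cases h5 : xor (σ 0) (σ' 0) = false
    · left
      funext x
      have h6 := h3 x
      rw [h5] at h6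
      revert h6
      generalize σ x = a, σ' x = b
      revert a b
      decide
    · right
      funext x
      have h6 := h3 x
      rw [Bool.not_eq_false] at h5
      rw [h5] at h6
      show σ' x = !(σ x)
      revert h6
      generalize σ x = a, σ' x = b
      revert a b
      decide

end CU
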